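import Pool.Agent.Helper10.RS.Goals2

/-!
# Project RS (MP_82322d_al), packet PRODT: many chief factors `PSL_2(p)`
-/

set_option autoImplicit false

namespace Pool.Agent.Helper8.RS

open Pool.Agent.Helper10.RS

universe u v w

/-! ### Simple non-abelian groups -/

theorem perfect_of_simple {Q : Type u} [Group Q] [IsSimpleGroup Q]
    (hn : ¬ ∀ a b : Q, a * b = b * a) : ⁅(⊤ : Subgroup Q), (⊤ : Subgroup Q)⁆ = ⊤ := by
  have hnorm : (⁅(⊤ : Subgroup Q), (⊤ : Subgroup Q)⁆).Normal := inferInstance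
  rcases hnorm.eq_bot_or_eq_top with h | h
  · exfalso
    apply hn
    intro a b
    have h1 := Subgroup.commutator_mem_commutator (Subgroup.mem_top a) (Subgroup.mem_top b)
    rw [h, Subgroup.mem_bot] at h1
    exact commutatorElement_eq_one_iff_mul_comm.1 h1
  · exact h

/-- kernels of two surjections onto simple groups of different order -/
theorem ker_map_top {H : Type u} {Q : Type v} {R : Type w} [Group H] [Group Q] [Group R]
    [IsSimpleGroup Q] [IsSimpleGroup R] (f : H →* Q) (g : H →* R)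
    (hf : Function.Surjective f) (hg : Function.Surjective g)
    (hc : Nat.card Q ≠ Nat.card R) : f.ker.map g = ⊤ := by
  have hnorm : (f.ker.map g).Normal := Subgroup.Normal.map inferInstance g hg
  rcases hnorm.eq_bot_or_eq_top with h | h
  · exfalso
    have hle : f.ker ≤ g.ker := by
      intro x hx
      have h1 : g x ∈ f.ker.map g := ⟨x, hx, rfl⟩
      rw [h, Subgroup.mem_bot] at h1
      exact h1
    let l : Q →* R := f.liftOfSurjective hf ⟨g, hle⟩
    have hl : ∀ x, l (f x) = g x := fun x =>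
      MonoidHom.liftOfRightInverse_comp_apply f _ _ ⟨g, hle⟩ x
    have hls : Function.Surjective l := by
      intro y
      obtain ⟨x, rfl⟩ := hg y
      exact ⟨f x, hl x⟩
    have hkn : l.ker.Normal := inferInstance
    rcases hkn.eq_bot_or_eq_top with hk | hk
    · apply hc
      have hinj : Function.Injective l := (MonoidHom.ker_eq_bot_iff l).1 hk
      exact Nat.card_congr (Equiv.ofBijective l ⟨hinj, hls⟩)
    · obtain ⟨a, ha⟩ := exists_ne (1 : R)
      obtain ⟨b, rfl⟩ := hls a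
      apply ha
      have : b ∈ l.ker := by rw [hk]; exact Subgroup.mem_top b
      exact this
  · exact h

section Pi

variable {H : Type u} [Group H] {ι : Type} [DecidableEq ι] {Q : ι → Type} [∀ i, Group (Q i)]
  (φ : ∀ i, H →* Q i)

/-- the common kernel -/
def MM (S : Finset ι) : Subgroup H where
  carrier := {h | ∀ i ∈ S, φ i h = 1}
  mul_mem' := by
    intro a b ha hb i hi
    rw [map_mul, ha i hi, hb i hi, one_mul]
  one_mem' := fun i _ => map_one _
  inv_mem' := by
    intro a ha i hi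
    rw [map_inv, ha i hi, inv_one]

theorem MM_map [∀ i, IsSimpleGroup (Q i)] (hn : ∀ i, ¬ ∀ a b : Q i, a * b = b * a)
    (hφ : ∀ i, Function.Surjective (φ i))
    (hc : ∀ i j, i ≠ j → Nat.card (Q i) ≠ Nat.card (Q j)) (S : Finset ι) :
    ∀ p ∉ S, (MM φ S).map (φ p) = ⊤ := by
  induction S using Finset.induction_on with
  | empty =>
    intro p _
    rw [eq_top_iff]
    intro y _
    obtain ⟨x, rfl⟩ := hφ p y
    exact ⟨x, fun i hi => absurd hi (Finset.notMem_empty i), rfl⟩
  | insert q S hq ih =>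
    intro p hp
    rw [Finset.mem_insert, not_or] at hp
    have h1 := ih p hp.2
    have h2 := ker_map_top (φ q) (φ p) (hφ q) (hφ p) (hc q p (fun h => hp.1 h.symm))
    have h3 : ⁅MM φ S, (φ q).ker⁆ ≤ MM φ (insert q S) := by
      rw [Subgroup.commutator_le]
      intro a ha b hb i hi
      rw [map_commutatorElement]
      rcases Finset.mem_insert.1 hi with rfl | hi
      · have hb' : φ i b = 1 := hb
        rw [hb', commutatorElement_one_right]
      · rw [ha i hi, commutatorElement_one_left]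
    rw [eq_top_iff]
    calc (⊤ : Subgroup (Q p)) = ⁅(⊤ : Subgroup (Q p)), (⊤ : Subgroup (Q p))⁆ := (perfect_of_simple (hn p)).symm
      _ = ⁅(MM φ S).map (φ p), ((φ q).ker).map (φ p)⁆ := by rw [h1, h2]
      _ = (⁅MM φ S, (φ q).ker⁆).map (φ p) := (Subgroup.map_commutator _ _ _).symm
      _ ≤ (MM φ (insert q S)).map (φ p) := Subgroup.map_mono h3

theorem surj_pi [∀ i, IsSimpleGroup (Q i)] (hn : ∀ i, ¬ ∀ a b : Q i, a * b = b * a)
    (hφ : ∀ i, Function.Surjective (φ i))
    (hc : ∀ i j, i ≠ j → Nat.card (Q i) ≠ Nat.card (Q j)) (y : ∀ i, Q i) (S : Finset ι) :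
    ∃ h : H, ∀ i ∈ S, φ i h = y i := by
  induction S using Finset.induction_on with
  | empty => exact ⟨1, fun i hi => absurd hi (Finset.notMem_empty i)⟩
  | insert q S hq ih =>
    obtain ⟨h, hh⟩ := ih
    have h1 : (φ q h)⁻¹ * y q ∈ (MM φ S).map (φ q) := by
      rw [MM_map φ hn hφ hc S q hq]
      exact Subgroup.mem_top _
    obtain ⟨m, hm, hmq⟩ := h1
    refine ⟨h * m, fun i hi => ?_⟩
    rcases Finset.mem_insert.1 hi with rfl | hi
    · rw [map_mul, hmq, mul_inv_cancel_left]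
    · rw [map_mul, hh i hi, hm i hi, mul_one]

end Pi

/-! ### Regular elements -/

theorem reg_iff {G : Type u} [Group G] (g : G) :
    ¬ 2 ∣ orderOf g ↔ ∃ k : ℕ, ¬ 2 ∣ k ∧ g ^ k = 1 := by
  constructor
  · intro h
    exact ⟨orderOf g, h, pow_orderOf_eq_one g⟩
  · rintro ⟨k, hk, hg⟩ h
    exact hk (h.trans (orderOf_dvd_of_pow_eq_one hg))

theorem reg_pi {ι : Type} [Fintype ι] (Q : ι → Type) [∀ i, Group (Q i)] :
    reg (∀ i, Q i) 2 = ∏ i, reg (Q i) 2 := by
  unfold reg
  rw [← Nat.card_pi]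
  refine Nat.card_congr ((Equiv.subtypeEquivRight ?_).trans Equiv.subtypePiEquivPi)
  intro f
  rw [reg_iff]
  constructor
  · rintro ⟨k, hk, hf⟩ i
    rw [reg_iff]
    exact ⟨k, hk, congrFun hf i⟩
  · intro h
    choose k hk hf using fun i => (reg_iff (f i)).1 (h i)
    refine ⟨∏ i, k i, ?_, ?_⟩
    · rw [Nat.prime_two.prime.dvd_finsetProd_iff]
      rintro ⟨i, _, hi⟩
      exact hk i hi
    · funext i
      obtain ⟨m, hm⟩ : k i ∣ ∏ i, k i := Finset.dvd_prod_of_mem k (Finset.mem_univ i)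
      rw [Pi.pow_apply, hm, pow_mul, hf i, one_pow]
      rfl

theorem reg_congr {G : Type u} {H : Type v} [Group G] [Group H] (e : G ≃* H) (p : ℕ) :
    reg G p = reg H p := by
  unfold reg
  refine Nat.card_congr (Equiv.subtypeEquiv e.toEquiv ?_)
  intro a
  have : orderOf (e a) = orderOf a := MulEquiv.orderOf_eq e a
  show ¬ p ∣ orderOf a ↔ ¬ p ∣ orderOf (e a)
  rw [this]

/-! ### The groups `PSL_2(p)` -/

theorem card_psl (hP : PSLC) {p : ℕ} (hp : p.Prime) (h5 : 5 ≤ p) :
    2 * Nat.card (PSL2 p) = p * (p ^ 2 - 1) := (hP p hp h5).1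

theorem card_psl_pos (hP : PSLC) {p : ℕ} (hp : p.Prime) (h5 : 5 ≤ p) :
    0 < Nat.card (PSL2 p) := by
  have h := card_psl hP hp h5
  have h1 : 1 ≤ p ^ 2 - 1 := by
    have : 5 ^ 2 ≤ p ^ 2 := Nat.pow_le_pow_left h5 2
    omega
  have h2 : 0 < p * (p ^ 2 - 1) := Nat.mul_pos (by omega) (by omega)
  omega

theorem card_psl_inj (hP : PSLC) {p q : ℕ} (hp : p.Prime) (h5 : 5 ≤ p) (hq : q.Prime)
    (hq5 : 5 ≤ q) (h : Nat.card (PSL2 p) = Nat.card (PSL2 q)) : p = q := by
  have a := card_psl hP hp h5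
  have b := card_psl hP hq hq5
  rw [h, b] at a
  have key : ∀ x y : ℕ, 5 ≤ x → x < y → x * (x ^ 2 - 1) < y * (y ^ 2 - 1) := by
    intro x y hx hxy
    have h1 : x ^ 2 ≤ y ^ 2 := Nat.pow_le_pow_left hxy.le 2
    have h2 : 5 ^ 2 ≤ x ^ 2 := Nat.pow_le_pow_left hx 2
    exact Nat.mul_lt_mul_of_lt_of_le hxy (by omega) (by omega)
  rcases lt_trichotomy p q with h1 | h1 | h1
  · have := key p q h5 h1; omega
  · exact h1
  · have := key q p hq5 h1; omega

theorem psl_nonab (hP : PSLC) {p : ℕ} (hp : p.Prime) (h5 : 5 ≤ p) [hs : IsSimpleGroup (PSL2 p)] :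
    ¬ ∀ a b : PSL2 p, a * b = b * a := by
  intro hcomm
  let : CommGroup (PSL2 p) := { (inferInstance : Group (PSL2 p)) with mul_comm := hcomm }
  have : Finite (PSL2 p) := Nat.finite_of_card_ne_zero (card_psl_pos hP hp h5).ne'
  have hpr : (Nat.card (PSL2 p)).Prime := IsSimpleGroup.prime_card
  have h := card_psl hP hp h5
  have hd : p ∣ 2 * Nat.card (PSL2 p) := ⟨_, h⟩
  have h25 : 5 ^ 2 ≤ p ^ 2 := Nat.pow_le_pow_left h5 2
  rcases hp.dvd_mul.1 hd with h1 | h1
  · have := Nat.le_of_dvd (by norm_num) h1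
    omega
  · have h2 : p = Nat.card (PSL2 p) := (Nat.prime_dvd_prime_iff_eq hp hpr).1 h1
    rw [← h2, mul_comm] at h
    have h3 := Nat.eq_of_mul_eq_mul_left hp.pos h
    omega

/-! ### The odd part and one chief factor -/

/-- the subgroup generated by the elements of odd order -/
def G0 (G : Type u) [Group G] : Subgroup G := Subgroup.normalClosure {g : G | ¬ 2 ∣ orderOf g}

instance (G : Type u) [Group G] : (G0 G).Normal := by
  unfold G0
  infer_instance

theorem mem_G0 {G : Type u} [Group G] {g : G} (h : ¬ 2 ∣ orderOf g) : g ∈ G0 G :=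
  Subgroup.subset_normalClosure h

/-- a normal subgroup isomorphic to `PSL_2(p)` gives a quotient of the odd part -/
theorem step_normal (hA : AUTP.{u}) (hP : PSLC) {A : Type u} [Group A] [Finite A]
    (N : Subgroup A) [N.Normal] {p : ℕ} (hp : p.Prime) (h5 : 5 ≤ p) [IsSimpleGroup (PSL2 p)]
    (e : N ≃* PSL2 p) {G : Type u} [Group G] (π : G →* A) (hπ : Function.Surjective π)
    [Finite G] :
    ∃ φ : G0 G →* PSL2 p, Function.Surjective φ := by
  have hnab := psl_nonab hP hp h5
  have hsN : IsSimpleGroup N := (MulEquiv.isSimpleGroup_congr e).2 inferInstance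
  set C : Subgroup A := Subgroup.centralizer (N : Set A) with hC
  have : C.Normal := Subgroup.normal_centralizer
  -- trivial intersection
  have hNC : ∀ x ∈ N, x ∈ C → x = 1 := by
    intro x hxN hxC
    have hnorm : (C.subgroupOf N).Normal := inferInstance
    rcases hnorm.eq_bot_or_eq_top with h | h
    · have h1 : (⟨x, hxN⟩ : N) ∈ C.subgroupOf N := hxC
      rw [h, Subgroup.mem_bot] at h1
      exact congrArg Subtype.val h1
    · exfalso
      apply hnab
      intro a b
      have h1 : (e.symm a) ∈ C.subgroupOf N := by rw [h]; exact Subgroup.mem_top _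
      have h2 : ((e.symm a : N) : A) ∈ C := h1
      have h3 := Subgroup.mem_centralizer_iff.1 h2 (e.symm b : N) (e.symm b).2
      have h4 : e.symm b * e.symm a = e.symm a * e.symm b := Subtype.ext h3
      rw [← map_mul, ← map_mul] at h4
      exact (e.symm.injective h4).symm
  let mk := QuotientGroup.mk' C
  let T : Subgroup (A ⧸ C) := N.map mk
  have : T.Normal := Subgroup.Normal.map inferInstance mk (QuotientGroup.mk'_surjective C)
  have hinj : Function.Injective (mk.comp N.subtype) := by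
    rw [← MonoidHom.ker_eq_bot_iff, Subgroup.eq_bot_iff_forall]
    intro x hx
    have h1 : mk (x : A) = 1 := hx
    have h2 : (x : A) ∈ C := (QuotientGroup.eq_one_iff (x : A)).1 h1
    exact Subtype.ext (hNC x x.2 h2)
  have hrange : (mk.comp N.subtype).range = T := by
    rw [MonoidHom.range_comp, Subgroup.range_subtype]
  let eT0 : N ≃* (mk.comp N.subtype).range := MonoidHom.ofInjective hinj
  let eT : T ≃* PSL2 p := (MulEquiv.subgroupCongr hrange).symm.trans (eT0.symm.trans e)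
  have hcent : Subgroup.centralizer (T : Set (A ⧸ C)) = ⊥ := by
    rw [Subgroup.eq_bot_iff_forall]
    intro b hb
    obtain ⟨g, rfl⟩ := QuotientGroup.mk'_surjective C b
    have hgC : g ∈ C := by
      rw [hC, Subgroup.mem_centralizer_iff]
      intro x hx
      have h1 := Subgroup.mem_centralizer_iff.1 hb (mk x) ⟨x, hx, rfl⟩
      -- commutator in `C ⊓ N`
      have h2 : mk (x * g * x⁻¹ * g⁻¹) = 1 := by
        rw [map_mul, map_mul, map_mul, h1, map_inv, map_inv, mul_inv_cancel_right,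
          mul_inv_cancel]
      have h3 : x * g * x⁻¹ * g⁻¹ ∈ C := (QuotientGroup.eq_one_iff _).1 h2
      have h4 : x * g * x⁻¹ * g⁻¹ ∈ N := by
        have h5 : g * x⁻¹ * g⁻¹ ∈ N := Subgroup.Normal.conj_mem inferInstance _ (N.inv_mem hx) g
        have h6 : x * (g * x⁻¹ * g⁻¹) ∈ N := N.mul_mem hx h5
        have h7 : x * g * x⁻¹ * g⁻¹ = x * (g * x⁻¹ * g⁻¹) := by group
        rw [h7]
        exact h6
      have h5 := hNC _ h4 h3
      have h6 : x * g = g * x := by
        have h7 : x * g * x⁻¹ * g⁻¹ * (g * x) = x * g := by group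
        rw [← h7, h5, one_mul]
      exact h6
    exact (QuotientGroup.eq_one_iff g).2 hgC
  have hidx : T.index ≤ 2 := hA hP (A ⧸ C) T p hp h5 ⟨eT⟩ hcent
  have hsT : IsSimpleGroup T := (MulEquiv.isSimpleGroup_congr eT).2 inferInstance
  let F : G →* A ⧸ C := mk.comp π
  have hF : Function.Surjective F := (QuotientGroup.mk'_surjective C).comp hπ
  have hpos : T.index ≠ 0 := Subgroup.index_ne_zero_of_finite
  -- odd elements go to `T`
  have hsq : ∀ b : A ⧸ C, b ^ 2 ∈ T := by
    intro b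
    obtain h | h : T.index = 1 ∨ T.index = 2 := by omega
    · rw [Subgroup.index_eq_one.1 h]
      exact Subgroup.mem_top _
    · exact Subgroup.sq_mem_of_index_two h b
  have hodd : ∀ g : G, ¬ 2 ∣ orderOf g → F g ∈ T := by
    intro g hg
    have h1 : (F g) ^ orderOf g = 1 := by rw [← map_pow, pow_orderOf_eq_one, map_one]
    obtain ⟨m, hm⟩ : ∃ m, orderOf g = 2 * m + 1 := by
      rcases Nat.even_or_odd' (orderOf g) with ⟨m, hm | hm⟩
      · exact absurd ⟨m, hm⟩ hg
      · exact ⟨m, hm⟩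
    have h2 : F g * ((F g) ^ 2) ^ m = 1 := by
      rw [← pow_mul, ← pow_succ', ← hm]
      exact h1
    have h3 : F g = (((F g) ^ 2) ^ m)⁻¹ := eq_inv_of_mul_eq_one_left h2
    rw [h3]
    exact T.inv_mem (T.pow_mem (hsq _) m)
  have hG0T : ∀ g ∈ G0 G, F g ∈ T := by
    have : G0 G ≤ T.comap F := Subgroup.normalClosure_le_normal (fun g hg => hodd g hg)
    exact fun g hg => this hg
  -- the image is everything
  let ψ : G0 G →* T := (F.comp (G0 G).subtype).codRestrict T (fun g => hG0T g.1 g.2)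
  have hψ : Function.Surjective ψ := by
    have hn : ((G0 G).map F).Normal := Subgroup.Normal.map inferInstance F hF
    have hrn : (((G0 G).map F).subgroupOf T).Normal := inferInstance
    have htop : ((G0 G).map F).subgroupOf T = ⊤ := by
      rcases hrn.eq_bot_or_eq_top with h | h
      · exfalso
        -- an element of order `p`
        have : Fact p.Prime := ⟨hp⟩
        have hcard : Nat.card T = Nat.card (PSL2 p) := Nat.card_congr eT.toEquiv
        have hpd : p ∣ Nat.card T := by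
          have h1 : p ∣ 2 * Nat.card (PSL2 p) := ⟨_, card_psl hP hp h5⟩
          rcases hp.dvd_mul.1 h1 with h2 | h2
          · have := Nat.le_of_dvd (by norm_num) h2
            omega
          · rw [hcard]; exact h2
        obtain ⟨t, ht⟩ := exists_prime_orderOf_dvd_card' p hpd
        obtain ⟨g, hg⟩ := hF (t : A ⧸ C)
        obtain ⟨a, k, hk2, hk⟩ := Nat.exists_eq_two_pow_mul_odd (orderOf_pos g).ne'
        have h1 : ¬ 2 ∣ orderOf (g ^ 2 ^ a) := by
          rw [reg_iff]
          refine ⟨k, ?_, ?_⟩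
          · rw [← even_iff_two_dvd, Nat.not_even_iff_odd]
            exact hk2
          · rw [← pow_mul, ← hk, pow_orderOf_eq_one]
        have h2 : F (g ^ 2 ^ a) ∈ (G0 G).map F := ⟨_, mem_G0 h1, rfl⟩
        have h3 : t ^ 2 ^ a ∈ ((G0 G).map F).subgroupOf T := by
          show ((t ^ 2 ^ a : T) : A ⧸ C) ∈ (G0 G).map F
          rw [Subgroup.coe_pow, ← hg, ← map_pow]
          exact h2
        rw [h, Subgroup.mem_bot] at h3
        have h4 : p ∣ 2 ^ a := by
          rw [← ht]
          exact orderOf_dvd_of_pow_eq_one h3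
        have h5' := (Nat.prime_dvd_prime_iff_eq hp Nat.prime_two).1 (hp.dvd_of_dvd_pow h4)
        omega
      · exact h
    intro t
    have h1 : t ∈ ((G0 G).map F).subgroupOf T := by rw [htop]; exact Subgroup.mem_top t
    obtain ⟨g, hg, hgt⟩ := h1
    exact ⟨⟨g, hg⟩, Subtype.ext hgt⟩
  exact ⟨eT.toMonoidHom.comp ψ, eT.surjective.comp hψ⟩

/-- a chief factor `PSL_2(p)` -/
theorem step_chief (hA : AUTP.{u}) (hP : PSLC) {G : Type u} [Group G] [Finite G] {p : ℕ}
    (hp : p.Prime) (h5 : 5 ≤ p) (X Y : Subgroup G) [X.Normal] [Y.Normal]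
    (hs : IsSimpleGroup (↥X ⧸ Y.subgroupOf X)) (e : (↥X ⧸ Y.subgroupOf X) ≃* PSL2 p) :
    IsSimpleGroup (PSL2 p) ∧ ∃ φ : G0 G →* PSL2 p, Function.Surjective φ := by
  have hs2 : IsSimpleGroup (PSL2 p) := (MulEquiv.isSimpleGroup_congr e).1 hs
  refine ⟨hs2, ?_⟩
  let mk := QuotientGroup.mk' Y
  have : (X.map mk).Normal :=
    Subgroup.Normal.map inferInstance mk (QuotientGroup.mk'_surjective Y)
  have hrange : (mk.comp X.subtype).range = X.map mk := by
    rw [MonoidHom.range_comp, Subgroup.range_subtype]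
  have hker : (mk.comp X.subtype).ker = Y.subgroupOf X := by
    ext x
    show mk (x : G) = 1 ↔ (x : G) ∈ Y
    exact QuotientGroup.eq_one_iff (x : G)
  let e1 : (↥X ⧸ (mk.comp X.subtype).ker) ≃* (mk.comp X.subtype).range :=
    QuotientGroup.quotientKerEquivRange (mk.comp X.subtype)
  let e2 : (↥X ⧸ (mk.comp X.subtype).ker) ≃* (↥X ⧸ Y.subgroupOf X) :=
    QuotientGroup.quotientMulEquivOfEq hker
  let e3 : (X.map mk) ≃* PSL2 p :=
    (MulEquiv.subgroupCongr hrange).symm.trans (e1.symm.trans (e2.trans e))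
  exact step_normal hA hP (X.map mk) hp h5 e3 mk (QuotientGroup.mk'_surjective Y)

/-- PACKET PRODT -/
theorem p_prodt : PRODT.{u} := by
  intro hQ _ hA hP G _ _ P hPP
  -- the family
  have hfam : ∀ i : P, IsSimpleGroup (PSL2 i.1) ∧
      ∃ φ : G0 G →* PSL2 i.1, Function.Surjective φ := by
    intro i
    obtain ⟨hp, h5, X, Y, hX, hY, _, hs, ⟨e⟩⟩ := hPP i.1 i.2
    exact step_chief hA hP hp h5 X Y hs e
  have hsimp : ∀ i : P, IsSimpleGroup (PSL2 i.1) := fun i => (hfam i).1
  choose φ hφ using fun i => (hfam i).2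
  have hfin : ∀ i : P, Finite (PSL2 i.1) := fun i =>
    Nat.finite_of_card_ne_zero (card_psl_pos hP (hPP i.1 i.2).1 (hPP i.1 i.2).2.1).ne'
  have hnab : ∀ i : P, ¬ ∀ a b : PSL2 i.1, a * b = b * a := fun i =>
    psl_nonab hP (hPP i.1 i.2).1 (hPP i.1 i.2).2.1
  have hcne : ∀ i j : P, i ≠ j → Nat.card (PSL2 i.1) ≠ Nat.card (PSL2 j.1) := by
    intro i j hij h
    exact hij (Subtype.ext (card_psl_inj hP (hPP i.1 i.2).1 (hPP i.1 i.2).2.1
      (hPP j.1 j.2).1 (hPP j.1 j.2).2.1 h))
  let Φ : G0 G →* (∀ i : P, PSL2 i.1) := MonoidHom.pi φ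
  have hΦ : Function.Surjective Φ := by
    intro y
    obtain ⟨h, hh⟩ := surj_pi (Q := fun i : P => PSL2 i.1) φ hnab hφ hcne y Finset.univ
    exact ⟨h, funext fun i => hh i (Finset.mem_univ i)⟩
  let eΦ : (G0 G ⧸ Φ.ker) ≃* (∀ i : P, PSL2 i.1) := QuotientGroup.quotientKerEquivOfSurjective Φ hΦ
  have h1 := (hQ (G0 G) Φ.ker 2 Nat.prime_two).1
  rw [reg_congr eΦ 2, reg_pi, Nat.card_congr eΦ.toEquiv, Nat.card_pi] at h1
  -- regular elements of `G` are in `G0 G`
  have h2 : reg G 2 ≤ reg (G0 G) 2 := by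
    unfold reg
    apply Nat.card_le_card_of_injective
      (fun g : {g : G // ¬ 2 ∣ orderOf g} =>
        (⟨⟨g.1, mem_G0 g.2⟩, by rw [Subgroup.orderOf_mk]; exact g.2⟩ :
          {h : G0 G // ¬ 2 ∣ orderOf h}))
    intro a b hab
    exact Subtype.ext (congrArg (fun x => (x.1 : G)) hab)
  have h3 : Nat.card (G0 G) ≤ Nat.card G := Subgroup.card_le_card_group _
  have h4 : 4 ^ P.card * ∏ i : P, reg (PSL2 i.1) 2 ≤ 3 ^ P.card * ∏ i : P, Nat.card (PSL2 i.1) := by
    have e4 : ∀ c : ℕ, c ^ P.card = ∏ _i : P, c := by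
      intro c
      rw [Finset.prod_const, Finset.card_univ, Fintype.card_coe]
    rw [e4 4, e4 3, ← Finset.prod_mul_distrib, ← Finset.prod_mul_distrib]
    apply Finset.prod_le_prod'
    intro i _
    have := (hP i.1 (hPP i.1 i.2).1 (hPP i.1 i.2).2.1).2
    rw [mul_comm 4]
    exact this
  have h5 : 0 < ∏ i : P, Nat.card (PSL2 i.1) :=
    Finset.prod_pos fun i _ => card_psl_pos hP (hPP i.1 i.2).1 (hPP i.1 i.2).2.1
  refine Nat.le_of_mul_le_mul_right ?_ h5
  calc reg G 2 * 4 ^ P.card * ∏ i : P, Nat.card (PSL2 i.1)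
      ≤ reg (G0 G) 2 * 4 ^ P.card * ∏ i : P, Nat.card (PSL2 i.1) :=
        Nat.mul_le_mul_right _ (Nat.mul_le_mul_right _ h2)
    _ = 4 ^ P.card * (reg (G0 G) 2 * ∏ i : P, Nat.card (PSL2 i.1)) := by ring
    _ ≤ 4 ^ P.card * ((∏ i : P, reg (PSL2 i.1) 2) * Nat.card (G0 G)) :=
        Nat.mul_le_mul_left _ h1
    _ = (4 ^ P.card * ∏ i : P, reg (PSL2 i.1) 2) * Nat.card (G0 G) := by ring
    _ ≤ (3 ^ P.card * ∏ i : P, Nat.card (PSL2 i.1)) * Nat.card G := Nat.mul_le_mul h4 h3
    _ = 3 ^ P.card * Nat.card G * ∏ i : P, Nat.card (PSL2 i.1) := by ring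

end Pool.Agent.Helper8.RS
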