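import Pool.Agent.Helper36.RS.Goals

/-!
# Project RF, existence part: difference estimate of the mixed system (packet QF4)
-/

namespace Pool.Agent.Helper8.RS

open Set Filter Topology MeasureTheory Pool.Agent.Helper47.RF Pool.Agent.Helper36.RS

theorem bf_zero (u v : XS) : bf 0 u v = ip u v := by
  rw [bf_apply]
  have h : Wle 0 = {[]} := by
    ext w
    rw [mem_Wle, Finset.mem_singleton]
    exact ⟨fun h => List.length_eq_zero_iff.1 (by omega), fun h => by simp [h]⟩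
  rw [h, Finset.sum_singleton]
  rfl

theorem young {ε : ℝ} (hε : 0 < ε) (m : ℕ) (u v : XS) :
    bf m u v ≤ ε * sn m v + (4 * ε)⁻¹ * sn m u := by
  have h1 := cs m u v
  have h2 := sn_nonneg m u
  have h3 := sn_nonneg m v
  have h4 : 0 ≤ ε * sn m v + (4 * ε)⁻¹ * sn m u := by positivity
  have h5 : sn m u * sn m v ≤ (ε * sn m v + (4 * ε)⁻¹ * sn m u) ^ 2 := by
    have h6 : (ε * sn m v + (4 * ε)⁻¹ * sn m u) ^ 2 =
        (ε * sn m v - (4 * ε)⁻¹ * sn m u) ^ 2 + sn m u * sn m v := by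
      field_simp
      ring
    rw [h6]
    linarith [sq_nonneg (ε * sn m v - (4 * ε)⁻¹ * sn m u)]
  exact (le_abs_self _).trans (abs_le_of_sq_le_sq (h1.trans h5) h4)

theorem ip_mul (u v : XS) : ip u v = ip 1 (u * v) := by
  rw [ip_apply, ip_apply]
  congr 1
  funext x
  have h1 : ((1 : XS).1 x : ℝ) = 1 := rfl
  have h2 : ((u * v : XS).1 x : ℝ) = u.1 x * v.1 x := rfl
  rw [h1, h2, one_mul]

theorem int_mono {f g : XS} (h : ∀ x ≠ 0, f.1 x ≤ g.1 x) : ip 1 f ≤ ip 1 g := by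
  rw [ip_apply, ip_apply, integ, integ]
  have h1 : ∫ x in Metric.ball (0 : HH) 1, (1 : XS).1 x * f.1 x ≤
      ∫ x in Metric.ball (0 : HH) 1, (1 : XS).1 x * g.1 x := by
    apply integral_mono_ae (integrable_val (1 * f)) (integrable_val (1 * g))
    have h2 : ∀ᵐ x : HH ∂(volume.restrict (Metric.ball (0 : HH) 1)), x ≠ 0 := by
      apply ae_restrict_of_ae
      exact Measure.ae_ne volume 0
    filter_upwards [h2] with x hx
    have h3 : ((1 : XS).1 x : ℝ) = 1 := rfl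
    show (1 : XS).1 x * f.1 x ≤ (1 : XS).1 x * g.1 x
    rw [h3, one_mul, one_mul]
    exact h x hx
  linarith

theorem sn_one_le (w : XS) : sn 1 w ≤ sn 0 w + ∑ i, sn 0 (Ed i w) := by
  classical
  rw [sn_eq]
  have h1 : Wle 1 ⊆ insert [] (Finset.univ.image fun i : Fin 3 => [i]) := by
    intro v hv
    rw [mem_Wle] at hv
    rw [Finset.mem_insert, Finset.mem_image]
    match v, hv with
    | [], _ => exact Or.inl rfl
    | [i], _ => exact Or.inr ⟨i, Finset.mem_univ _, rfl⟩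
    | a :: b :: c, hv => simp at hv
  refine (Finset.sum_le_sum_of_subset_of_nonneg h1 fun v _ _ => ip_nonneg _).trans ?_
  rw [Finset.sum_insert (by simp), Finset.sum_image (by intro a _ b _ hab; simpa using hab)]
  simp only [sn_zero]
  rfl

theorem sn_sum3 (m : ℕ) (x : Fin 3 → XS) : sn m (∑ k, x k) ≤ 4 * ∑ k, sn m (x k) := by
  rw [Fin.sum_univ_three, Fin.sum_univ_three]
  have h1 := sn_add_le m (x 0 + x 1) (x 2)
  have h2 := sn_add_le m (x 0) (x 1)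
  have h3 := sn_nonneg m (x 2)
  linarith

theorem exists_unif {ι : Type} [Fintype ι] {P : ι → ℝ → Prop}
    (hmono : ∀ i a b, a ≤ b → P i a → P i b) (h : ∀ i, ∃ C, P i C) : ∃ C, 0 ≤ C ∧ ∀ i, P i C := by
  choose c hc using h
  refine ⟨∑ i, |c i|, Finset.sum_nonneg fun i _ => abs_nonneg _, fun i => hmono i _ _ ?_ (hc i)⟩
  exact (le_abs_self _).trans
    (Finset.single_le_sum (f := fun i => |c i|) (fun i _ => abs_nonneg _) (Finset.mem_univ i))

/-- integrated ellipticity -/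
theorem ell_int {lam : ℝ} (a : Fin 3 → Fin 3 → XS) (w : XS)
    (h : ∀ x ≠ 0, ∀ ξ : Fin 3 → ℝ, lam * ∑ i, ξ i ^ 2 ≤ ∑ i, ∑ k, (a i k).1 x * ξ i * ξ k) :
    lam * ∑ i, ip (Ed i w) (Ed i w) ≤ ∑ i, ip (Ed i w) (∑ k, a i k * Ed k w) := by
  have e1 : ∑ i, ip (Ed i w) (∑ k, a i k * Ed k w) = ip 1 (∑ i, Ed i w * ∑ k, a i k * Ed k w) := by
    rw [map_sum]
    exact Finset.sum_congr rfl fun i _ => ip_mul _ _
  have e2 : lam * ∑ i, ip (Ed i w) (Ed i w) = ip 1 (lam • ∑ i, Ed i w * Ed i w) := by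
    rw [map_smul, map_sum, smul_eq_mul]
    congr 1
    exact Finset.sum_congr rfl fun i _ => ip_mul _ _
  rw [e1, e2]
  apply int_mono
  intro x hx
  have h1 := h x hx (fun i => (Ed i w).1 x)
  simp only [Fin.sum_univ_three] at h1 ⊢
  have h2 : (lam • (Ed 0 w * Ed 0 w + Ed 1 w * Ed 1 w + Ed 2 w * Ed 2 w) : XS).1 x =
      lam * ((Ed 0 w).1 x * (Ed 0 w).1 x + (Ed 1 w).1 x * (Ed 1 w).1 x + (Ed 2 w).1 x * (Ed 2 w).1 x) := rfl
  have h3 : (Ed 0 w * (a 0 0 * Ed 0 w + a 0 1 * Ed 1 w + a 0 2 * Ed 2 w)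
      + Ed 1 w * (a 1 0 * Ed 0 w + a 1 1 * Ed 1 w + a 1 2 * Ed 2 w)
      + Ed 2 w * (a 2 0 * Ed 0 w + a 2 1 * Ed 1 w + a 2 2 * Ed 2 w) : XS).1 x =
      (Ed 0 w).1 x * ((a 0 0).1 x * (Ed 0 w).1 x + (a 0 1).1 x * (Ed 1 w).1 x + (a 0 2).1 x * (Ed 2 w).1 x)
      + (Ed 1 w).1 x * ((a 1 0).1 x * (Ed 0 w).1 x + (a 1 1).1 x * (Ed 1 w).1 x + (a 1 2).1 x * (Ed 2 w).1 x)
      + (Ed 2 w).1 x * ((a 2 0).1 x * (Ed 0 w).1 x + (a 2 1).1 x * (Ed 1 w).1 x + (a 2 2).1 x * (Ed 2 w).1 x) :=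
    rfl
  rw [h2, h3]
  refine le_trans (le_of_eq ?_) (h1.trans (le_of_eq ?_)) <;> ring

/-- one component of the second group: energy estimate of the difference -/
theorem comp_le {lam ε : ℝ} (hlam : 0 < lam) (hε : 0 < ε) (a : Fin 3 → Fin 3 → XS) (w : XS)
    (h : ∀ x ≠ 0, ∀ ξ : Fin 3 → ℝ, lam * ∑ i, ξ i ^ 2 ≤ ∑ i, ∑ k, (a i k).1 x * ξ i * ξ k)
    (R : Fin 3 → XS) (S : XS) :
    bf 0 w (∑ i, Ed i ((∑ k, a i k * Ed k w) + R i) + S) ≤
      -(3 / 4 * lam) * (∑ i, sn 0 (Ed i w)) + lam⁻¹ * (∑ i, sn 0 (R i)) + (4 * ε)⁻¹ * sn 0 w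
        + ε * sn 0 S := by
  have h1 := ell_int a w h
  have h2 : bf 0 w (∑ i, Ed i ((∑ k, a i k * Ed k w) + R i) + S) =
      -(∑ i, ip (Ed i w) (∑ k, a i k * Ed k w)) + (∑ i, bf 0 (Ed i w) (-R i)) + bf 0 w S := by
    simp only [bf_zero, map_add, map_sum, map_neg]
    have h3 : ∀ i (f : XS), ip w (Ed i f) = - ip (Ed i w) f := by
      intro i f
      rw [ibp]
      ring
    simp only [h3, Finset.sum_add_distrib, Finset.sum_neg_distrib, Finset.sum_neg_distrib]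
  have h3 : ∀ i, bf 0 (Ed i w) (-R i) ≤ lam / 4 * sn 0 (Ed i w) + lam⁻¹ * sn 0 (R i) := by
    intro i
    have h4 := young (show 0 < lam⁻¹ by positivity) 0 (Ed i w) (-R i)
    rw [sn_neg] at h4
    have h5 : (4 * lam⁻¹)⁻¹ = lam / 4 := by
      rw [mul_inv, inv_inv]
      ring
    rw [h5] at h4
    linarith
  have h4 : ∑ i, bf 0 (Ed i w) (-R i) ≤ lam / 4 * (∑ i, sn 0 (Ed i w)) + lam⁻¹ * ∑ i, sn 0 (R i) := by
    rw [Finset.mul_sum, Finset.mul_sum, ← Finset.sum_add_distrib]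
    exact Finset.sum_le_sum fun i _ => h3 i
  have h5 := young hε 0 w S
  have h6 : ∑ i, ip (Ed i w) (Ed i w) = ∑ i, sn 0 (Ed i w) :=
    Finset.sum_congr rfl fun i _ => (sn_zero _).symm
  rw [h6] at h1
  rw [h2]
  linarith

section main

variable {I J : Type} [Fintype I] [Fintype J]

theorem sn_of_qq {m : ℕ} {L : ℝ} {y : I ⊕ J → XS} (h : qq m y ≤ L) (a : I ⊕ J) : sn (m + kap a) (y a) ≤ L := by
  refine le_trans ?_ h
  exact Finset.single_le_sum (f := fun a => sn (m + kap a) (y a)) (fun a _ => sn_nonneg _ _)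
    (Finset.mem_univ a)

omit [Fintype I] [Fintype J] in
theorem zj_le {L : ℝ} {u : I → XS} {v : J → XS} (hu : ∀ i, sn 13 (u i) ≤ L) (hv : ∀ j, sn 12 (v j) ≤ L) :
    ∀ a, sn 8 (zj u v a) ≤ L := by
  intro a
  rcases a with i | p | j
  · exact (sn_mono (by norm_num) _).trans (hu i)
  · exact (sn_Ed 8 p.1 (u p.2)).trans ((sn_mono (by norm_num) _).trans (hu p.2))
  · exact (sn_mono (by norm_num) _).trans (hv j)

omit [Fintype I] [Fintype J] in
theorem zj'_le {L : ℝ} {u : I → XS} {v : J → XS} (hu : ∀ i, sn 13 (u i) ≤ L) (hv : ∀ j, sn 12 (v j) ≤ L) :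
    ∀ a, sn 8 (zj' u v a) ≤ L := by
  intro a
  rcases a with a | p
  · exact zj_le hu hv a
  · exact (sn_Ed 8 p.1 (v p.2)).trans ((sn_mono (by norm_num) _).trans (hv p.2))

theorem zj_diff (u u' : I → XS) (v v' : J → XS) :
    ∑ a, sn 0 (zj u v a - zj u' v' a) ≤
      4 * (∑ i, sn 1 (u i - u' i)) + ∑ j, sn 0 (v j - v' j) := by
  rw [Fintype.sum_sum_type, Fintype.sum_sum_type]
  have h1 : ∑ i, sn 0 (zj u v (Sum.inl i) - zj u' v' (Sum.inl i)) ≤ ∑ i, sn 1 (u i - u' i) :=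
    Finset.sum_le_sum fun i _ => sn_mono (by norm_num) _
  have h2 : ∑ p : Fin 3 × I, sn 0 (zj u v (Sum.inr (Sum.inl p)) - zj u' v' (Sum.inr (Sum.inl p))) ≤
      3 * ∑ i, sn 1 (u i - u' i) := by
    have h3 : ∑ p : Fin 3 × I, sn 0 (zj u v (Sum.inr (Sum.inl p)) - zj u' v' (Sum.inr (Sum.inl p))) ≤
        ∑ p : Fin 3 × I, sn 1 (u p.2 - u' p.2) := by
      refine Finset.sum_le_sum fun p _ => ?_
      show sn 0 (Ed p.1 (u p.2) - Ed p.1 (u' p.2)) ≤ _
      rw [← map_sub]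
      exact sn_Ed 0 p.1 _
    refine h3.trans (le_of_eq ?_)
    rw [Fintype.sum_prod_type, Fin.sum_univ_three]
    ring
  have h4 : ∑ j, sn 0 (zj u v (Sum.inr (Sum.inr j)) - zj u' v' (Sum.inr (Sum.inr j))) =
      ∑ j, sn 0 (v j - v' j) := rfl
  rw [h4]
  linarith

theorem zj'_diff (u u' : I → XS) (v v' : J → XS) :
    ∑ a, sn 0 (zj' u v a - zj' u' v' a) ≤
      4 * (∑ i, sn 1 (u i - u' i)) + (∑ j, sn 0 (v j - v' j))
        + ∑ j, ∑ i, sn 0 (Ed i (v j - v' j)) := by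
  rw [Fintype.sum_sum_type]
  have h1 := zj_diff u u' v v'
  have h2 : ∑ p : Fin 3 × J, sn 0 (zj' u v (Sum.inr p) - zj' u' v' (Sum.inr p)) =
      ∑ j, ∑ i, sn 0 (Ed i (v j - v' j)) := by
    rw [Fintype.sum_prod_type, Finset.sum_comm]
    refine Finset.sum_congr rfl fun j _ => Finset.sum_congr rfl fun i _ => ?_
    rw [map_sub]
    rfl
  rw [h2]
  have h3 : ∑ a, sn 0 (zj' u v (Sum.inl a) - zj' u' v' (Sum.inl a)) = ∑ a, sn 0 (zj u v a - zj u' v' a) := rfl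
  rw [h3]
  linarith

theorem uv_diff (u u' : I → XS) (v v' : J → XS) :
    ∑ a, sn 1 ((Sum.elim u v : I ⊕ J → XS) a - (Sum.elim u' v' : I ⊕ J → XS) a) ≤
      (∑ i, sn 1 (u i - u' i)) + (∑ j, sn 0 (v j - v' j)) + ∑ j, ∑ i, sn 0 (Ed i (v j - v' j)) := by
  rw [Fintype.sum_sum_type]
  have h1 : ∑ j, sn 1 ((Sum.elim u v : I ⊕ J → XS) (Sum.inr j) - (Sum.elim u' v' : I ⊕ J → XS) (Sum.inr j)) ≤
      (∑ j, sn 0 (v j - v' j)) + ∑ j, ∑ i, sn 0 (Ed i (v j - v' j)) := by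
    rw [← Finset.sum_add_distrib]
    exact Finset.sum_le_sum fun j _ => sn_one_le _
  have h2 : ∑ i, sn 1 ((Sum.elim u v : I ⊕ J → XS) (Sum.inl i) - (Sum.elim u' v' : I ⊕ J → XS) (Sum.inl i)) =
      ∑ i, sn 1 (u i - u' i) := rfl
  rw [h2]
  linarith

omit [Fintype I] [Fintype J] in
theorem FJ_diff (D : QLD I J) (u u' : I → XS) (v v' : J → XS) (j : J) :
    D.FJ u v j - D.FJ u' v' j =
      ∑ i, Ed i ((∑ k, MvPolynomial.aeval u (D.α i k) * Ed k (v j - v' j)) +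
        ((∑ k, (MvPolynomial.aeval u (D.α i k) - MvPolynomial.aeval u' (D.α i k)) * Ed k (v' j)) +
          (MvPolynomial.aeval (zj u v) (D.β i j) - MvPolynomial.aeval (zj u' v') (D.β i j)))) +
      (MvPolynomial.aeval (zj' u v) (D.W j) - MvPolynomial.aeval (zj' u' v') (D.W j)) := by
  unfold QLD.FJ
  have h1 : ∀ i, (∑ k, MvPolynomial.aeval u (D.α i k) * Ed k (v j - v' j)) +
        ((∑ k, (MvPolynomial.aeval u (D.α i k) - MvPolynomial.aeval u' (D.α i k)) * Ed k (v' j)) +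
          (MvPolynomial.aeval (zj u v) (D.β i j) - MvPolynomial.aeval (zj u' v') (D.β i j))) =
      ((∑ k, MvPolynomial.aeval u (D.α i k) * Ed k (v j)) + MvPolynomial.aeval (zj u v) (D.β i j)) -
      ((∑ k, MvPolynomial.aeval u' (D.α i k) * Ed k (v' j)) + MvPolynomial.aeval (zj u' v') (D.β i j)) := by
    intro i
    simp only [map_sub, sub_mul, mul_sub, Finset.sum_sub_distrib]
    ring
  simp only [h1]
  rw [Finset.sum_congr rfl fun i _ => map_sub (Ed i) _ _, Finset.sum_sub_distrib]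
  ring

/-- the constant of the difference estimate -/
noncomputable def KC (n m lam L CG Ca Cb CW CP : ℝ) : ℝ :=
  lam / 4 + (4 * (lam / (4 * (n * CG + 1))))⁻¹ +
    m * (lam⁻¹ * (3 * (2 * (4 * (3 * (CP * (|L| * Ca))) + Cb * 4)))) +
    (4 * (lam / (4 * (m * CW + 1))))⁻¹ + lam

theorem qf4_core (D : QLD I J) {lam L CG Ca Cb CW CP : ℝ} (hlam : 0 < lam)
    (hCG : 0 ≤ CG) (hCa : 0 ≤ Ca) (hCb : 0 ≤ Cb) (hCW : 0 ≤ CW) (hCP : 0 ≤ CP)
    (u u' : I → XS) (v v' : J → XS)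
    (hv' : ∀ j, sn 12 (v' j) ≤ L)
    (hell : ∀ x ≠ 0, ∀ ξ : Fin 3 → ℝ, lam * ∑ i, ξ i ^ 2 ≤
      ∑ i, ∑ k, (MvPolynomial.aeval u (D.α i k) : XS).1 x * ξ i * ξ k)
    (hG : ∀ i, sn 1 (D.FI u v i - D.FI u' v' i) ≤ CG * ((∑ i, sn 1 (u i - u' i)) + (∑ j, sn 0 (v j - v' j))
      + ∑ j, ∑ i, sn 0 (Ed i (v j - v' j))))
    (ha : ∀ i k, sn 0 (MvPolynomial.aeval u (D.α i k) - MvPolynomial.aeval u' (D.α i k)) ≤
      Ca * ∑ i, sn 1 (u i - u' i))
    (hb : ∀ i j, sn 0 (MvPolynomial.aeval (zj u v) (D.β i j) - MvPolynomial.aeval (zj u' v') (D.β i j)) ≤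
      Cb * (4 * (∑ i, sn 1 (u i - u' i)) + ∑ j, sn 0 (v j - v' j)))
    (hW : ∀ j, sn 0 (MvPolynomial.aeval (zj' u v) (D.W j) - MvPolynomial.aeval (zj' u' v') (D.W j)) ≤
      CW * (4 * (∑ i, sn 1 (u i - u' i)) + (∑ j, sn 0 (v j - v' j))
        + ∑ j, ∑ i, sn 0 (Ed i (v j - v' j))))
    (hP : ∀ f h : XS, sn 0 (f * h) ≤ CP * (sn (0 + 4) f * sn 0 h)) :
    (∑ i, bf 1 (u i - u' i) (D.FI u v i - D.FI u' v' i)) + ∑ j, bf 0 (v j - v' j) (D.FJ u v j - D.FJ u' v' j) ≤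
      KC (Fintype.card I) (Fintype.card J) lam L CG Ca Cb CW CP *
      ((∑ i, sn 1 (u i - u' i)) + ∑ j, sn 0 (v j - v' j)) := by
  unfold KC
  set A : ℝ := ∑ i, sn 1 (u i - u' i) with hAdef
  set B : ℝ := ∑ j, sn 0 (v j - v' j) with hBdef
  set E : ℝ := ∑ j, ∑ i, sn 0 (Ed i (v j - v' j)) with hEdef
  have hA : 0 ≤ A := Finset.sum_nonneg fun i _ => sn_nonneg _ _
  have hB : 0 ≤ B := Finset.sum_nonneg fun j _ => sn_nonneg _ _
  have hE : 0 ≤ E := Finset.sum_nonneg fun j _ => Finset.sum_nonneg fun i _ => sn_nonneg _ _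
  set n : ℝ := (Fintype.card I : ℝ) with hn
  set m : ℝ := (Fintype.card J : ℝ) with hm
  have hn0 : 0 ≤ n := Nat.cast_nonneg _
  have hm0 : 0 ≤ m := Nat.cast_nonneg _
  have hε1 : 0 < lam / (4 * (n * CG + 1)) := by positivity
  have hε3 : 0 < lam / (4 * (m * CW + 1)) := by positivity
  have hk1 : n * (lam / (4 * (n * CG + 1)) * CG) ≤ lam / 4 := by
    have h1 : n * (lam / (4 * (n * CG + 1)) * CG) = (lam / 4) * ((n * CG) / (n * CG + 1)) := by
      field_simp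
    rw [h1]
    have h2 : (n * CG) / (n * CG + 1) ≤ 1 := by
      rw [div_le_one (by positivity)]
      linarith
    calc (lam / 4) * ((n * CG) / (n * CG + 1)) ≤ (lam / 4) * 1 := mul_le_mul_of_nonneg_left h2 (by positivity)
      _ = lam / 4 := mul_one _
  have hk3 : m * (lam / (4 * (m * CW + 1)) * CW) ≤ lam / 4 := by
    have h1 : m * (lam / (4 * (m * CW + 1)) * CW) = (lam / 4) * ((m * CW) / (m * CW + 1)) := by
      field_simp
    rw [h1]
    have h2 : (m * CW) / (m * CW + 1) ≤ 1 := by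
      rw [div_le_one (by positivity)]
      linarith
    calc (lam / 4) * ((m * CW) / (m * CW + 1)) ≤ (lam / 4) * 1 := mul_le_mul_of_nonneg_left h2 (by positivity)
      _ = lam / 4 := mul_one _
  generalize lam / (4 * (n * CG + 1)) = ε1 at *
  generalize lam / (4 * (m * CW + 1)) = ε3 at *
  -- first group
  have hI : ∑ i, bf 1 (u i - u' i) (D.FI u v i - D.FI u' v' i) ≤
      n * (ε1 * CG) * (A + B + E) + (4 * ε1)⁻¹ * A := by
    have h1 : ∀ i, bf 1 (u i - u' i) (D.FI u v i - D.FI u' v' i) ≤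
        ε1 * (CG * (A + B + E)) + (4 * ε1)⁻¹ * sn 1 (u i - u' i) := by
      intro i
      have h2 := young hε1 1 (u i - u' i) (D.FI u v i - D.FI u' v' i)
      have h3 := mul_le_mul_of_nonneg_left (hG i) hε1.le
      linarith
    refine (Finset.sum_le_sum fun i _ => h1 i).trans (le_of_eq ?_)
    rw [Finset.sum_add_distrib, Finset.sum_const, Finset.card_univ, nsmul_eq_mul, ← Finset.mul_sum]
    ring
  -- second group
  have hR : ∀ i j, sn 0 ((∑ k, (MvPolynomial.aeval u (D.α i k) - MvPolynomial.aeval u' (D.α i k)) * Ed k (v' j)) +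
          (MvPolynomial.aeval (zj u v) (D.β i j) - MvPolynomial.aeval (zj u' v') (D.β i j))) ≤
      2 * (4 * (3 * (CP * (|L| * Ca))) + Cb * 4) * (A + B) := by
    intro i j
    have h1 := sn_add_le 0 (∑ k, (MvPolynomial.aeval u (D.α i k) - MvPolynomial.aeval u' (D.α i k)) * Ed k (v' j))
      (MvPolynomial.aeval (zj u v) (D.β i j) - MvPolynomial.aeval (zj u' v') (D.β i j))
    have h2 := sn_sum3 0 (fun k =>
      (MvPolynomial.aeval u (D.α i k) - MvPolynomial.aeval u' (D.α i k)) * Ed k (v' j))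
    have h3 : ∀ k, sn 0 ((MvPolynomial.aeval u (D.α i k) - MvPolynomial.aeval u' (D.α i k)) * Ed k (v' j)) ≤
        CP * (|L| * Ca) * A := by
      intro k
      rw [mul_comm]
      refine (hP _ _).trans ?_
      have h4 : sn (0 + 4) (Ed k (v' j)) ≤ |L| :=
        ((sn_Ed 4 k (v' j)).trans ((sn_mono (by norm_num) _).trans (hv' j))).trans (le_abs_self L)
      have h5 := mul_le_mul h4 (ha i k) (sn_nonneg _ _) (abs_nonneg L)
      calc CP * (sn (0 + 4) (Ed k (v' j)) *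
            sn 0 (MvPolynomial.aeval u (D.α i k) - MvPolynomial.aeval u' (D.α i k)))
          ≤ CP * (|L| * (Ca * A)) := mul_le_mul_of_nonneg_left h5 hCP
        _ = CP * (|L| * Ca) * A := by ring
    have h6 : ∑ k, sn 0 ((MvPolynomial.aeval u (D.α i k) - MvPolynomial.aeval u' (D.α i k)) * Ed k (v' j)) ≤
        3 * (CP * (|L| * Ca) * A) := by
      refine (Finset.sum_le_sum fun k _ => h3 k).trans (le_of_eq ?_)
      simp
    have h7 := hb i j
    have h8 : 0 ≤ CP * (|L| * Ca) := by positivity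
    have h9 : 0 ≤ CP * (|L| * Ca) * B := mul_nonneg h8 hB
    have h10 : 0 ≤ Cb * B := mul_nonneg hCb hB
    have h11 : Cb * (4 * A + B) = 4 * (Cb * A) + Cb * B := by ring
    have h12 : 2 * (4 * (3 * (CP * (|L| * Ca))) + Cb * 4) * (A + B) =
        24 * (CP * (|L| * Ca) * A) + 24 * (CP * (|L| * Ca) * B) + 8 * (Cb * A) + 8 * (Cb * B) := by ring
    rw [h12]
    linarith
  generalize 2 * (4 * (3 * (CP * (|L| * Ca))) + Cb * 4) = CR at *
  have hJ : ∑ j, bf 0 (v j - v' j) (D.FJ u v j - D.FJ u' v' j) ≤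
      -(3 / 4 * lam) * E + m * (lam⁻¹ * (3 * CR)) * (A + B) + (4 * ε3)⁻¹ * B
        + m * (ε3 * CW) * (4 * A + B + E) := by
    have h1 : ∀ j, bf 0 (v j - v' j) (D.FJ u v j - D.FJ u' v' j) ≤
        -(3 / 4 * lam) * (∑ i, sn 0 (Ed i (v j - v' j))) + lam⁻¹ * (3 * (CR * (A + B)))
          + (4 * ε3)⁻¹ * sn 0 (v j - v' j) + ε3 * (CW * (4 * A + B + E)) := by
      intro j
      rw [FJ_diff]
      refine (comp_le hlam hε3 (fun i k => MvPolynomial.aeval u (D.α i k)) (v j - v' j) hell _ _).trans ?_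
      have h2 : ∑ i, sn 0 ((∑ k, (MvPolynomial.aeval u (D.α i k) - MvPolynomial.aeval u' (D.α i k)) *
          Ed k (v' j)) + (MvPolynomial.aeval (zj u v) (D.β i j) - MvPolynomial.aeval (zj u' v') (D.β i j))) ≤
          3 * (CR * (A + B)) := by
        refine (Finset.sum_le_sum fun i _ => hR i j).trans (le_of_eq ?_)
        simp
      have h3 := mul_le_mul_of_nonneg_left h2 (inv_pos.mpr hlam).le
      have h4 := mul_le_mul_of_nonneg_left (hW j) hε3.le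
      linarith
    refine (Finset.sum_le_sum fun j _ => h1 j).trans (le_of_eq ?_)
    simp only [Finset.sum_add_distrib, Finset.sum_const, Finset.card_univ, nsmul_eq_mul, ← Finset.mul_sum]
    ring
  have h1 : n * (ε1 * CG) * (A + B + E) ≤ lam / 4 * (A + B + E) :=
    mul_le_mul_of_nonneg_right hk1 (by positivity)
  have h2 : m * (ε3 * CW) * (4 * A + B + E) ≤ lam / 4 * (4 * A + B + E) :=
    mul_le_mul_of_nonneg_right hk3 (by positivity)
  have h3 : 0 ≤ (4 * ε1)⁻¹ * B := by positivity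
  have h4 : 0 ≤ (4 * ε3)⁻¹ * A := by positivity
  have h5 : 0 ≤ lam * B := by positivity
  have h6 : 0 ≤ lam * E := by positivity
  nlinarith

end main

theorem qf4 : G_QF4 := by
  intro hS hP hM I J _ _ D u0 lam ρ hlam hEll L
  have mono : ∀ {c d e : ℝ}, c ≤ d → 0 ≤ e → c * e ≤ d * e := fun h h' => mul_le_mul_of_nonneg_right h h'
  obtain ⟨CG, hCG, hG⟩ := exists_unif (ι := I) (P := fun i C => ∀ z z' : I ⊕ J → XS,
      (∀ a, sn (1 + 8) (z a) ≤ L) → (∀ a, sn (1 + 8) (z' a) ≤ L) →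
      sn 1 (MvPolynomial.aeval z (D.G i) - MvPolynomial.aeval z' (D.G i)) ≤ C * ∑ a, sn 1 (z a - z' a))
    (fun i a b hab h z z' hz hz' => (h z z' hz hz').trans
      (mono hab (Finset.sum_nonneg fun a _ => sn_nonneg _ _)))
    (fun i => (hM hS hP (I ⊕ J) (D.G i)).2.1 1 L)
  obtain ⟨Ca, hCa, ha⟩ := exists_unif (ι := Fin 3 × Fin 3) (P := fun p C => ∀ z z' : I → XS,
      (∀ a, sn (0 + 8) (z a) ≤ L) → (∀ a, sn (0 + 8) (z' a) ≤ L) →
      sn 0 (MvPolynomial.aeval z (D.α p.1 p.2) - MvPolynomial.aeval z' (D.α p.1 p.2)) ≤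
        C * ∑ a, sn 0 (z a - z' a))
    (fun i a b hab h z z' hz hz' => (h z z' hz hz').trans
      (mono hab (Finset.sum_nonneg fun a _ => sn_nonneg _ _)))
    (fun p => (hM hS hP I (D.α p.1 p.2)).2.1 0 L)
  obtain ⟨Cb, hCb, hb⟩ := exists_unif (ι := Fin 3 × J) (P := fun p C => ∀ z z' : I ⊕ ((Fin 3 × I) ⊕ J) → XS,
      (∀ a, sn (0 + 8) (z a) ≤ L) → (∀ a, sn (0 + 8) (z' a) ≤ L) →
      sn 0 (MvPolynomial.aeval z (D.β p.1 p.2) - MvPolynomial.aeval z' (D.β p.1 p.2)) ≤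
        C * ∑ a, sn 0 (z a - z' a))
    (fun i a b hab h z z' hz hz' => (h z z' hz hz').trans
      (mono hab (Finset.sum_nonneg fun a _ => sn_nonneg _ _)))
    (fun p => (hM hS hP (I ⊕ ((Fin 3 × I) ⊕ J)) (D.β p.1 p.2)).2.1 0 L)
  obtain ⟨CW, hCW, hW⟩ := exists_unif (ι := J)
    (P := fun j C => ∀ z z' : (I ⊕ ((Fin 3 × I) ⊕ J)) ⊕ (Fin 3 × J) → XS,
      (∀ a, sn (0 + 8) (z a) ≤ L) → (∀ a, sn (0 + 8) (z' a) ≤ L) →
      sn 0 (MvPolynomial.aeval z (D.W j) - MvPolynomial.aeval z' (D.W j)) ≤ C * ∑ a, sn 0 (z a - z' a))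
    (fun i a b hab h z z' hz hz' => (h z z' hz hz').trans
      (mono hab (Finset.sum_nonneg fun a _ => sn_nonneg _ _)))
    (fun j => (hM hS hP ((I ⊕ ((Fin 3 × I) ⊕ J)) ⊕ (Fin 3 × J)) (D.W j)).2.1 0 L)
  obtain ⟨CP, hCP⟩ := (hP hS).2.1 0
  refine ⟨KC (Fintype.card I) (Fintype.card J) lam L CG Ca Cb CW |CP|, fun y y' hy _ hq hq' => ?_⟩
  have hu : ∀ i, sn 13 (y (Sum.inl i)) ≤ L := fun i => sn_of_qq hq (Sum.inl i)
  have hv : ∀ j, sn 12 (y (Sum.inr j)) ≤ L := fun j => sn_of_qq hq (Sum.inr j)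
  have hu' : ∀ i, sn 13 (y' (Sum.inl i)) ≤ L := fun i => sn_of_qq hq' (Sum.inl i)
  have hv' : ∀ j, sn 12 (y' (Sum.inr j)) ≤ L := fun j => sn_of_qq hq' (Sum.inr j)
  have key := qf4_core (CP := |CP|) D hlam hCG hCa hCb hCW (abs_nonneg CP)
    (fun i => y (Sum.inl i)) (fun i => y' (Sum.inl i)) (fun j => y (Sum.inr j)) (fun j => y' (Sum.inr j))
    hv' (hEll _ hy)
    (fun i => (hG i (Sum.elim (fun i => y (Sum.inl i)) fun j => y (Sum.inr j))
      (Sum.elim (fun i => y' (Sum.inl i)) fun j => y' (Sum.inr j))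
      (fun a => by
        rcases a with i | j
        · exact (sn_mono (by norm_num) _).trans (hu i)
        · exact (sn_mono (by norm_num) _).trans (hv j))
      (fun a => by
        rcases a with i | j
        · exact (sn_mono (by norm_num) _).trans (hu' i)
        · exact (sn_mono (by norm_num) _).trans (hv' j))).trans
      (mul_le_mul_of_nonneg_left (uv_diff _ _ _ _) hCG))
    (fun i k => (ha (i, k) _ _ (fun i => (sn_mono (by norm_num) _).trans (hu i))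
      (fun i => (sn_mono (by norm_num) _).trans (hu' i))).trans
      (mul_le_mul_of_nonneg_left (Finset.sum_le_sum fun i _ => sn_mono (by norm_num) _) hCa))
    (fun i j => (hb (i, j) _ _ (zj_le hu hv) (zj_le hu' hv')).trans
      (mul_le_mul_of_nonneg_left (zj_diff _ _ _ _) hCb))
    (fun j => (hW j _ _ (zj'_le hu hv) (zj'_le hu' hv')).trans
      (mul_le_mul_of_nonneg_left (zj'_diff _ _ _ _) hCW))
    (fun f h => (hCP f h).trans (mul_le_mul_of_nonneg_right (le_abs_self CP)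
      (mul_nonneg (sn_nonneg _ _) (sn_nonneg _ _))))
  have e1 : bb 0 (y - y') (D.FF y - D.FF y') =
      (∑ i, bf 1 (y (Sum.inl i) - y' (Sum.inl i))
        (D.FI (fun i => y (Sum.inl i)) (fun j => y (Sum.inr j)) i -
          D.FI (fun i => y' (Sum.inl i)) (fun j => y' (Sum.inr j)) i)) +
      ∑ j, bf 0 (y (Sum.inr j) - y' (Sum.inr j))
        (D.FJ (fun i => y (Sum.inl i)) (fun j => y (Sum.inr j)) j -
          D.FJ (fun i => y' (Sum.inl i)) (fun j => y' (Sum.inr j)) j) := by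
    unfold bb
    rw [Fintype.sum_sum_type]
    rfl
  have e2 : qq 0 (y - y') = (∑ i, sn 1 (y (Sum.inl i) - y' (Sum.inl i))) +
      ∑ j, sn 0 (y (Sum.inr j) - y' (Sum.inr j)) := by
    unfold qq
    rw [Fintype.sum_sum_type]
    rfl
  rw [e1, e2]
  exact key

end Pool.Agent.Helper8.RS
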